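import Mathlib
import Pool.Agent.W93.GB4
import Pool.Agent.Y877.SxJ

/-!
# Goldbach representations `m = q + q'` for which `p_{q + 2} + h` (and `p_{q' + 2} + h'`) are prime
-/

set_option autoImplicit false

namespace Pool.Agent.P8H6.Idx

open Finset Pool.Agent.H560R3.GB
open Pool.Agent.H373R2.T7 (ev_L' ev_log' Vz)

/-- the `k`-th prime -/
noncomputable def p (k : ℕ) : ℕ := Nat.nth Nat.Prime (k - 1)

/-- the primes `q` with `m - q` and `p_{q + 2} + h` prime -/
noncomputable def one (m h : ℕ) : Finset ℕ :=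
  (range m).filter (fun q => q.Prime ∧ (m - q).Prime ∧ (p (q + 2) + h).Prime)

/-- the primes `q` with `q' = m - q`, `p_{q + 2} + h` and `p_{q' + 2} + h'` prime -/
noncomputable def two (m h h' : ℕ) : Finset ℕ :=
  (range m).filter (fun q => q.Prime ∧ (m - q).Prime ∧ (p (q + 2) + h).Prime ∧
    (p (m - q + 2) + h').Prime)

/-- the representations -/
def Js (m : ℕ) : Finset ℕ := (range m).filter (fun q => q.Prime ∧ (m - q).Prime)

theorem g_le (m : ℕ) : g m ≤ (Js m).card := by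
  unfold g Js
  refine card_le_card_of_injOn Prod.fst ?_ ?_
  · intro x hx
    rw [mem_coe, mem_filter, HasAntidiagonal.mem_antidiagonal] at hx
    rw [mem_coe, mem_filter, mem_range]
    have h2 := hx.2.2.two_le
    have h3 : m - x.1 = x.2 := by omega
    rw [h3]
    exact ⟨by omega, hx.2⟩
  · intro x hx y hy he
    rw [mem_coe, mem_filter, HasAntidiagonal.mem_antidiagonal] at hx hy
    exact Prod.ext he (by omega)

theorem HL_ge' (n : ℕ) : (n : ℝ) / Real.log n ^ 2 ≤ HL n := by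
  have h1 := Pool.Agent.W93.GB.one_le_sing n
  unfold HL
  have h2 : (0 : ℝ) ≤ (n : ℝ) / Real.log n ^ 2 := by positivity
  nlinarith

theorem nth_inj : Function.Injective (Nat.nth Nat.Prime) := Nat.nth_injective Nat.infinite_setOfPred_prime

/-- `m` is nice: many representations, and for almost all shifts the expected number of representations with
the condition on the indices -/
def Nice (ε : ℝ) (N y g₀ G g₁ G' m : ℕ) : Prop :=
  (1 - ε) * HL m ≤ (g m : ℝ) ∧
  (((Icc 1 G).filter (fun t => ((one m (primorial y * (g₀ + t))).card : ℝ) <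
    (1 - ε) * (HL m / (Vz y * Real.log N)))).card : ℝ) ≤ ε * G ∧
  (((Icc 1 G ×ˢ Icc 1 G').filter (fun t => ((two m (primorial y * (g₀ + t.1))
    (primorial y * (g₁ + t.2))).card : ℝ) < (1 - ε) * (HL m / (Vz y * Real.log N) ^ 2))).card : ℝ) ≤
      ε * (G * G')

theorem Vz_pos (y : ℕ) : 0 < Vz y := by
  unfold Vz
  apply prod_pos
  intro q hq
  have h1 : q.Prime := by
    unfold Pool.Agent.H373R2.T7.pz at hq
    exact (mem_filter.1 hq).2
  have h2 : (2 : ℝ) ≤ q := by exact_mod_cast h1.two_le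
  have h3 : 1 / (q : ℝ) ≤ 1 / 2 := one_div_le_one_div_of_le (by norm_num) h2
  linarith

theorem nice_of (B C : ℕ) (hB : 1 ≤ B) (ε : ℝ) (hε : 0 < ε) (hε1 : ε ≤ 1) : ∃ K₀ : ℕ, ∀ K₁ : ℕ,
    ∃ N₀ : ℕ, ∀ N : ℕ, N₀ ≤ N →
    ∀ y : ℕ, K₀ * Real.log (Real.log N) ≤ y → y ≤ K₁ * Real.log (Real.log N) →
    ∀ g₀ G : ℕ, primorial y * (g₀ + G) ≤ N → (N : ℝ) ≤ primorial y * G * Real.log N ^ C →
    ∀ g₁ G' : ℕ, primorial y * (g₁ + G') ≤ N → (N : ℝ) ≤ primorial y * G' * Real.log N ^ C →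
    ∀ m : ℕ, m ≤ B * N → (N : ℝ) ≤ m * Real.log N ^ C → Pool.Agent.W93.GB.Good (ε / 3) m →
      Nice ε N y g₀ G g₁ G' m := by
  classical
  obtain ⟨Ka, hKa⟩ := Pool.Agent.Y877.SX.step 1 (Or.inl rfl) (C + 3) 5 C (ε / 3) (by positivity)
    (by linarith)
  obtain ⟨Kb, hKb⟩ := Pool.Agent.Y877.SX.step2 1 1 (Or.inl rfl) (Or.inl rfl) (C + 3) 5 C (ε / 3)
    (by positivity) (by linarith)
  refine ⟨max Ka Kb, fun K₁ => ?_⟩
  obtain ⟨na, hna⟩ := hKa K₁
  obtain ⟨nb, hnb⟩ := hKb K₁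
  obtain ⟨n4, hn4⟩ := Pool.Agent.Y877.SX.nth_le_log
  obtain ⟨n5, hn5⟩ := ev_L' (max (8 : ℝ) (4 * B))
  obtain ⟨n6, hn6⟩ := ev_L' (Real.exp 1)
  refine ⟨max (max na nb) (max (max n4 n5) (max n6 2)), fun N hN y hy1 hy2 g₀ G hg1 hg2 g₁ G' hg3 hg4
    m hmB hmC hgood => ?_⟩
  have b1 : na ≤ N := (le_max_left _ _).trans ((le_max_left _ _).trans hN)
  have b2 : nb ≤ N := (le_max_right _ _).trans ((le_max_left _ _).trans hN)
  have b3 : n4 ≤ N := (le_max_left _ _).trans ((le_max_left _ _).trans ((le_max_right _ _).trans hN))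
  have b4 : n5 ≤ N := (le_max_right _ _).trans ((le_max_left _ _).trans ((le_max_right _ _).trans hN))
  have b5 : n6 ≤ N := (le_max_left _ _).trans ((le_max_right _ _).trans ((le_max_right _ _).trans hN))
  have b6 : 2 ≤ N := (le_max_right _ _).trans ((le_max_right _ _).trans ((le_max_right _ _).trans hN))
  obtain ⟨L, hL⟩ : ∃ L, L = Real.log N := ⟨_, rfl⟩
  have hL8 : (8 : ℝ) ≤ L := by rw [hL]; exact (le_max_left _ _).trans (hn5 N b4)
  have hLB : (4 : ℝ) * B ≤ L := by rw [hL]; exact (le_max_right _ _).trans (hn5 N b4)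
  have hLe : Real.exp 1 ≤ L := by rw [hL]; exact hn6 N b5
  have hL0 : 0 < L := by linarith
  have hN0 : (0 : ℝ) < N := by exact_mod_cast (by omega : 0 < N)
  have hBr : (1 : ℝ) ≤ B := by exact_mod_cast hB
  have hlB : Real.log B ≤ L := by
    have h1 : Real.log B ≤ B := (Real.log_le_sub_one_of_pos (by linarith)).trans (by linarith)
    linarith
  have hlBN : Real.log ((B * N : ℕ) : ℝ) ≤ 2 * L := by
    push_cast
    rw [Real.log_mul (by linarith) hN0.ne', ← hL]
    linarith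
  have hll : 0 ≤ Real.log (Real.log N) := by
    rw [← hL]
    apply Real.log_nonneg
    linarith
  have hya : (Ka : ℝ) * Real.log (Real.log N) ≤ y := by
    refine le_trans ?_ hy1
    apply mul_le_mul_of_nonneg_right _ hll
    exact_mod_cast le_max_left _ _
  have hyb : (Kb : ℝ) * Real.log (Real.log N) ≤ y := by
    refine le_trans ?_ hy1
    apply mul_le_mul_of_nonneg_right _ hll
    exact_mod_cast le_max_right _ _
  -- the number of representations
  have hm0 : (0 : ℝ) < m := by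
    by_contra h
    have h1 : (m : ℝ) * Real.log N ^ C ≤ 0 := by
      apply mul_nonpos_of_nonpos_of_nonneg (not_lt.1 h)
      rw [← hL]
      positivity
    linarith
  have hm1 : 1 ≤ m := by exact_mod_cast hm0
  have hlm0 : 0 ≤ Real.log m := Real.log_nonneg (by exact_mod_cast hm1)
  have hlm : Real.log m ≤ 2 * L := by
    refine le_trans (Real.log_le_log hm0 ?_) hlBN
    exact_mod_cast hmB
  have hHL := HL_ge' m
  have hHL2 : (m : ℝ) / (2 * L) ^ 2 ≤ HL m ∨ Real.log m = 0 := by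
    rcases hlm0.eq_or_lt with h | h
    · exact Or.inr h.symm
    · left
      refine le_trans ?_ hHL
      apply div_le_div_of_nonneg_left hm0.le (by positivity)
      exact pow_le_pow_left₀ hlm0 hlm 2
  obtain ⟨hgood1, P, Q, hP, hQ, -, hPQ⟩ := hgood
  have hm2 : 2 ≤ m := by have := hP.two_le; omega
  have hlmp : 0 < Real.log m := Real.log_pos (by exact_mod_cast (by omega : 1 < m))
  have hHLb : (m : ℝ) / (2 * L) ^ 2 ≤ HL m := by
    rcases hHL2 with h | h
    · exact h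
    · linarith
  have hHL0 : 0 ≤ HL m := le_trans (by positivity) hHLb
  have hg : (1 - ε / 3) * HL m ≤ (g m : ℝ) := by
    have h1 := (abs_le.1 hgood1).1
    linarith
  have hgJ : (g m : ℝ) ≤ ((Js m).card : ℝ) := by exact_mod_cast g_le m
  have hJ : (1 - ε / 3) * HL m ≤ ((Js m).card : ℝ) := hg.trans hgJ
  have hJbig : (N : ℝ) ≤ (Js m).card * Real.log N ^ (C + 3) := by
    rw [← hL] at hmC ⊢
    have h1 : HL m / 2 ≤ ((Js m).card : ℝ) := by
      refine le_trans ?_ hJ
      nlinarith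
    have h2 : (m : ℝ) / (8 * L ^ 2) ≤ ((Js m).card : ℝ) := by
      refine le_trans ?_ h1
      have : (m : ℝ) / (8 * L ^ 2) = (m / (2 * L) ^ 2) / 2 := by
        field_simp
        norm_num
      rw [this]
      linarith
    have h3 : (m : ℝ) ≤ (Js m).card * (8 * L ^ 2) := by
      rwa [div_le_iff₀ (by positivity)] at h2
    calc (N : ℝ) ≤ m * L ^ C := hmC
      _ ≤ ((Js m).card * (8 * L ^ 2)) * L ^ C := mul_le_mul_of_nonneg_right h3 (by positivity)
      _ ≤ ((Js m).card * (L * L ^ 2)) * L ^ C := by gcongr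
      _ = (Js m).card * L ^ (C + 3) := by ring
  -- the primes
  have hbound : ∀ i : ℕ, i ≤ B * N + 1 → (Nat.nth Nat.Prime i : ℝ) ≤ N * Real.log N ^ 5 := by
    intro i hi
    have hBN : n4 ≤ B * N := b3.trans (Nat.le_mul_of_pos_left N hB)
    have h1 := hn4 (B * N) hBN i (by
      have : 1 ≤ B * N := by nlinarith
      omega)
    refine h1.trans ?_
    have h2 : Real.log ((B * N : ℕ) : ℝ) ^ 2 ≤ (2 * L) ^ 2 := by
      apply pow_le_pow_left₀ _ hlBN
      apply Real.log_nonneg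
      have : 1 ≤ B * N := by nlinarith
      exact_mod_cast this
    calc ((B * N : ℕ) : ℝ) * Real.log ((B * N : ℕ) : ℝ) ^ 2 ≤ ((B * N : ℕ) : ℝ) * (2 * L) ^ 2 :=
          mul_le_mul_of_nonneg_left h2 (Nat.cast_nonneg _)
      _ = N * ((4 * B) * L ^ 2) := by push_cast; ring
      _ ≤ N * (L * L ^ 2) := by gcongr
      _ = N * L ^ 3 := by ring
      _ ≤ N * L ^ 5 := by
          apply mul_le_mul_of_nonneg_left _ hN0.le
          exact pow_le_pow_right₀ (by linarith) (by norm_num)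
      _ = N * Real.log N ^ 5 := by rw [hL]
  have hJm : ∀ q ∈ Js m, q < m := fun q hq => mem_range.1 (mem_filter.1 hq).1
  have hf1 : ∀ q ∈ Js m, (p (q + 2)).Prime ∧ (p (q + 2) : ℝ) ≤ N * Real.log N ^ 5 := by
    intro q hq
    have h1 := hJm q hq
    exact ⟨Nat.prime_nth_prime _, hbound _ (by omega)⟩
  have hf2 : ∀ q ∈ Js m, (p (m - q + 2)).Prime ∧ (p (m - q + 2) : ℝ) ≤ N * Real.log N ^ 5 := by
    intro q hq
    exact ⟨Nat.prime_nth_prime _, hbound _ (by omega)⟩
  have hi1 : Set.InjOn (fun q => p (q + 2)) (Js m : Set ℕ) := by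
    intro a _ b _ hab
    have := nth_inj hab
    omega
  have hi2 : Set.InjOn (fun q => p (m - q + 2)) (Js m : Set ℕ) := by
    intro a ha b hb hab
    have h1 := nth_inj hab
    have h2 := hJm a ha
    have h3 := hJm b hb
    omega
  have hV := Vz_pos y
  have hVL : 0 < Vz y * L := by positivity
  refine ⟨?_, ?_, ?_⟩
  · refine le_trans ?_ hg
    nlinarith
  · have h1 := hna N b1 y hya hy2 (Js m) hJbig (fun q => p (q + 2)) hi1 hf1 g₀ G
      (by rw [pow_one]; exact hg1) (by rw [pow_one]; exact hg2)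
    refine le_trans ?_ (h1.trans ?_)
    · rw [Nat.cast_le]
      apply card_le_card
      intro t ht
      rw [mem_filter] at ht ⊢
      refine ⟨ht.1, lt_of_le_of_lt (le_of_eq ?_) (lt_of_lt_of_le ht.2 ?_)⟩
      · congr 2
        unfold one Js
        rw [filter_filter]
        congr 1
        funext q
        simp only [pow_one, and_assoc]
      · push_cast
        rw [one_mul, ← hL, ← mul_div_assoc, ← mul_div_assoc]
        apply div_le_div_of_nonneg_right _ hVL.le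
        calc (1 - ε) * HL m ≤ (1 - ε / 3) * ((1 - ε / 3) * HL m) := by
              linarith [mul_nonneg (by positivity : (0 : ℝ) ≤ ε / 3 + ε ^ 2 / 9) hHL0]
          _ ≤ (1 - ε / 3) * (Js m).card := mul_le_mul_of_nonneg_left hJ (by linarith)
    · have : (0 : ℝ) ≤ G := Nat.cast_nonneg _
      nlinarith
  · have h1 := hnb N b2 y hyb hy2 (Js m) hJbig (fun q => p (q + 2)) (fun q => p (m - q + 2)) hi1 hi2
      hf1 hf2 g₀ G g₁ G' (by rw [pow_one]; exact hg1) (by rw [pow_one]; exact hg2)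
      (by rw [pow_one]; exact hg3) (by rw [pow_one]; exact hg4)
    refine le_trans ?_ (h1.trans ?_)
    · rw [Nat.cast_le]
      apply card_le_card
      intro t ht
      rw [mem_filter] at ht ⊢
      refine ⟨ht.1, lt_of_le_of_lt (le_of_eq ?_) (lt_of_lt_of_le ht.2 ?_)⟩
      · congr 2
        unfold two Js
        rw [filter_filter]
        congr 1
        funext q
        simp only [pow_one, and_assoc]
      · push_cast
        rw [one_mul, ← hL, ← mul_div_assoc, ← mul_div_assoc, ← sq]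
        apply div_le_div_of_nonneg_right _ (by positivity)
        calc (1 - ε) * HL m ≤ (1 - ε / 3) * ((1 - ε / 3) * HL m) := by
              linarith [mul_nonneg (by positivity : (0 : ℝ) ≤ ε / 3 + ε ^ 2 / 9) hHL0]
          _ ≤ (1 - ε / 3) * (Js m).card := mul_le_mul_of_nonneg_left hJ (by linarith)
    · have : (0 : ℝ) ≤ (G : ℝ) * G' := by positivity
      nlinarith

theorem main (h B C U : ℕ) (hh : 1 ≤ h) (hB : 1 ≤ B) (ε : ℝ) (hε : 0 < ε) (hε1 : ε ≤ 1) :
    ∃ K₀ : ℕ, ∀ K₁ : ℕ, ∃ N₀ : ℕ, ∀ N : ℕ, N₀ ≤ N →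
    ∀ y : ℕ, K₀ * Real.log (Real.log N) ≤ y → y ≤ K₁ * Real.log (Real.log N) →
    ∀ g₀ G : ℕ, primorial y * (g₀ + G) ≤ N → (N : ℝ) ≤ primorial y * G * Real.log N ^ C →
    ∀ g₁ G' : ℕ, primorial y * (g₁ + G') ≤ N → (N : ℝ) ≤ primorial y * G' * Real.log N ^ C →
    ∀ (x : ℕ) (s : ℕ → ℕ),
      (∀ m ∈ Icc 1 x, 2 ∣ s m ∧ s m ≤ B * N ∧ (N : ℝ) ≤ s m * Real.log N ^ C) →
      (energy h x s : ℝ) * N ≤ Real.log N ^ C * (x : ℝ) ^ (2 * h) →
      ({m : ℕ | 1 ≤ m ∧ m ≤ x ∧ ¬ Nice ε N y g₀ G g₁ G' (s m)}.ncard : ℝ) ≤ x / Real.log N ^ U := by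
  classical
  obtain ⟨K₀, hK₀⟩ := nice_of B C hB ε hε hε1
  refine ⟨K₀, fun K₁ => ?_⟩
  obtain ⟨n1, hn1⟩ := hK₀ K₁
  obtain ⟨n2, hn2⟩ := Pool.Agent.W93.GB.fam h B C U hh (ε / 3) (by positivity)
  refine ⟨max n1 n2, fun N hN y hy1 hy2 g₀ G hg1 hg2 g₁ G' hg3 hg4 x s hs hen => ?_⟩
  have h1 := hn2 N ((le_max_right _ _).trans hN) x s (fun m hm => ⟨(hs m hm).2.1, (hs m hm).1⟩) hen
    ((Icc 1 x).filter (fun m => ¬ Nice ε N y g₀ G g₁ G' (s m))) (filter_subset _ _) (by
      intro m hm hgood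
      rw [mem_filter] at hm
      exact hm.2 (hn1 N ((le_max_left _ _).trans hN) y hy1 hy2 g₀ G hg1 hg2 g₁ G' hg3 hg4 (s m)
        (hs m hm.1).2.1 (hs m hm.1).2.2 hgood))
  refine le_trans (le_of_eq ?_) h1
  rw [← Set.ncard_coe_finset]
  congr 2
  ext m
  simp only [Set.mem_ofPred_eq, coe_filter, mem_Icc, and_assoc]

end Pool.Agent.P8H6.Idx
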